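import Mathlib
import Pool.Agent.R233.Egg4

/-!
# The squeezing function tends to one along sequences at a weakly pseudoconvex finite type point

Let `D = {|x₀|² + |x₁|^{2k} + |x₂|² + ... < 1} ⊂ ℂⁿ` and `p = (1, 0, ..., 0)`. The automorphism
`φ_a` of `D`, `φ_a(x) = ((x₀+a)/(1+a x₀), (1-a²)^{1/2k} (1+a x₀)^{-1/k} x₁, ...)`, moves
`q_t = (0, t, 0, ..., 0)` to a point near `p` as `a → 1`, and `s_D(q_t) → 1` as `t → 1`: the
embedding `A_t ∘ T`, with `T(x) = (x₀/√k, x₁, x_i/√k)` mapping `D` into the unit ball and `A_t` the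
automorphism of the ball moving `(0, t, 0, …)` to `0`, has an image containing `B(0, r)` as soon as
`k (1-t²) < (1-r²)(1-r)²`.
-/

set_option autoImplicit false

open Topology Filter
open Pool.Agent.R233 Pool.Agent.R233.Egg

namespace Pool.Agent.Results.MP_63facb_an.SqueezingTendsToOne

/-- For all `n, k ≥ 2` there are a convex smoothly bounded domain `D ⊂ ℂⁿ` of finite type and a
boundary point `p` of `D` at which the Levi form has (at least) `n - 2` positive eigenvalues and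
which is not strongly pseudoconvex, such that for every function `ω` with `ω(δ) → ∞` as `δ → 0⁺`
there is a sequence `z_ν → p` in `D` with `s_D(z_ν) → 1` and
`‖z_ν - p‖ ≤ ω(δ_ν) δ_ν^{1/(2k)}`, where `δ_ν = dist(z_ν, ∂D)`. -/
theorem result (n : ℕ) (hn : 2 ≤ n) (k : ℕ) (hk : 2 ≤ k) :
    ∃ (D : Set (Fin n → ℂ)) (p : Fin n → ℂ),
      Convex ℝ D ∧ IsFiniteTypeDomain D ∧ p ∈ frontier D ∧
      LeviPositiveEigenvalues D p (n - 2) ∧ ¬ IsStronglyPseudoconvexAt D p ∧
      ∀ ω : ℝ → ℝ, Tendsto ω (𝓝[>] 0) atTop →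
        ∃ z : ℕ → (Fin n → ℂ), (∀ ν, z ν ∈ D) ∧ Tendsto z atTop (𝓝 p) ∧
          Tendsto (fun ν => squeezing D (z ν)) atTop (𝓝 1) ∧
          ∀ ν, ‖z ν - p‖ ≤ ω (Metric.infDist (z ν) (frontier D)) *
            Metric.infDist (z ν) (frontier D) ^ (1 / (2 * (k : ℝ))) := by
  obtain ⟨m, rfl⟩ : ∃ m, n = m + 2 := ⟨n - 2, by omega⟩
  refine ⟨Egg k m, pp m, Egg_convex k m, Egg_finite k m (by omega), pp_frontier k m (by omega),
    ?_, not_spc k m hk, fun ω hω => egg_seq (by omega) hω⟩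
  have : m + 2 - 2 = m := by omega
  rw [this]
  exact levi_pos k m (by omega)

end Pool.Agent.Results.MP_63facb_an.SqueezingTendsToOne
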